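import Pool.Agent.Helper81.AD2.Goals

/-!
# AD2-TL: orders and permutations compatible with strict inequalities and equalities
-/

namespace Pool.Agent.Helper91.AD2.TL

open Pool.Agent.Helper81.AD2

theorem eqv_add {X : Type} {E : X → X → Prop} {x y : X} {a b : X}
    (h : Relation.EqvGen (fun a b => E a b ∨ (a = x ∧ b = y)) a b) :
    Relation.EqvGen E a b ∨
      ((Relation.EqvGen E a x ∨ Relation.EqvGen E a y) ∧
        (Relation.EqvGen E b x ∨ Relation.EqvGen E b y)) := by
  induction h with
  | rel a b h =>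
    rcases h with h | ⟨rfl, rfl⟩
    · exact Or.inl (Relation.EqvGen.rel _ _ h)
    · exact Or.inr ⟨Or.inl (Relation.EqvGen.refl _), Or.inr (Relation.EqvGen.refl _)⟩
  | refl a => exact Or.inl (Relation.EqvGen.refl _)
  | symm a b _ ih =>
    rcases ih with ih | ⟨h1, h2⟩
    · exact Or.inl (Relation.EqvGen.symm _ _ ih)
    · exact Or.inr ⟨h2, h1⟩
  | trans a b c _ _ ih1 ih2 =>
    rcases ih1 with ih1 | ⟨h1, h2⟩
    · rcases ih2 with ih2 | ⟨h3, h4⟩
      · exact Or.inl (Relation.EqvGen.trans _ _ _ ih1 ih2)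
      · refine Or.inr ⟨?_, h4⟩
        rcases h3 with h3 | h3
        · exact Or.inl (Relation.EqvGen.trans _ _ _ ih1 h3)
        · exact Or.inr (Relation.EqvGen.trans _ _ _ ih1 h3)
    · rcases ih2 with ih2 | ⟨h3, h4⟩
      · refine Or.inr ⟨h1, ?_⟩
        rcases h2 with h2 | h2
        · exact Or.inl (Relation.EqvGen.trans _ _ _ (Relation.EqvGen.symm _ _ ih2) h2)
        · exact Or.inr (Relation.EqvGen.trans _ _ _ (Relation.EqvGen.symm _ _ ih2) h2)
      · exact Or.inr ⟨h1, h4⟩

theorem t (hC : S_TLC) (hO : S_TLO) : S_TL := by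
  intro X _ n
  induction n with
  | zero =>
    intro φ D E _
    unfold No Nc
    refine Nat.card_congr (Equiv.subtypeEquivRight fun σ => ?_)
    constructor
    · rintro ⟨f, h1, h2, _⟩
      exact ⟨f, h1, h2, fun i => i.elim0⟩
    · rintro ⟨f, h1, h2, _⟩
      exact ⟨f, h1, h2, fun i => i.elim0⟩
  | succ n ih =>
    intro φ D E h
    have h0 : ∀ i : Fin n, ¬ Relation.EqvGen E (φ 0) (φ i.succ) :=
      fun i => h 0 i.succ (Fin.succ_ne_zero i).symm
    rw [hO X n φ D E h0, hC X n φ D E]
    congr 1
    · exact ih _ D E fun i j hij => h i.succ j.succ (fun e => hij (Fin.succ_injective _ e))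
    · refine Finset.sum_congr rfl fun j _ => ?_
      refine ih _ D _ fun i i' hii hE => ?_
      have key : ∀ k : Fin n, (Relation.EqvGen E (φ k.succ) (φ 0) ∨
          Relation.EqvGen E (φ k.succ) (φ j.succ)) → k = j := by
        intro k hk
        rcases hk with hk | hk
        · exact absurd hk (h k.succ 0 (Fin.succ_ne_zero k))
        · by_contra hkj
          exact h k.succ j.succ (fun e => hkj (Fin.succ_injective _ e)) hk
      rcases eqv_add hE with hE | ⟨h1, h2⟩
      · exact h i.succ i'.succ (fun e => hii (Fin.succ_injective _ e)) hE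
      · exact hii ((key i h1).trans (key i' h2).symm)

end Pool.Agent.Helper91.AD2.TL
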